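import Pool.Agent.H937.QS.Stm

/-!
Project QS (helper937), task RET (helper894): the chart algebra of a fixed basis is smooth.
-/

set_option autoImplicit false

open scoped Matrix TensorProduct
open Pool.Agent.H937.QS
universe u
namespace Pool.Agent.H894.QS.RET

section poly

variable {R S : Type u} [CommRing R] [CommRing S]

theorem map_pL (φ : R →+* S) (s : Fin 3 → Fin 3 → Fin 4 → R) (X : Fin 15) :
    φ (pL s X) = pL (fun i j m => φ (s i j m)) X := by
  fin_cases X <;> simp [pL, map_ofNat]

theorem smul_pL (c : R) (s : Fin 3 → Fin 3 → Fin 4 → R) (X : Fin 15) :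
    pL (fun i j m => c * s i j m) X = c * pL s X := by
  fin_cases X <;> simp [pL] <;> ring

theorem map_qq (φ : R →+* S) (a : Fin 12 → R) (X : Fin 15) :
    φ (qq a X) = qq (fun s => φ (a s)) X := by
  fin_cases X <;> simp [qq]

theorem map_pp (φ : R →+* S) (a : Fin 12 → R) (X : Fin 15) :
    φ (pp a X) = pp (fun s => φ (a s)) X := by
  unfold pp
  rw [map_mul, map_qq]

theorem map_tt (φ : R →+* S) (a : Fin 12 → R) (X : Fin 3) :
    φ (tt a X) = tt (fun s => φ (a s)) X := by
  fin_cases X <;> simp [tt]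

theorem map_F1 (φ : R →+* S) (t : Fin 3 → R) (p : Fin 15 → R) (i j : Fin 4) :
    φ (F1 t p i j) = F1 (fun s => φ (t s)) (fun s => φ (p s)) i j := by
  fin_cases i <;> fin_cases j <;> simp [F1, map_ofNat]

theorem map_F2 (φ : R →+* S) (t : Fin 3 → R) (p : Fin 15 → R) (i j : Fin 4) :
    φ (F2 t p i j) = F2 (fun s => φ (t s)) (fun s => φ (p s)) i j := by
  fin_cases i <;> fin_cases j <;> simp [F2, map_ofNat]

theorem map_F3 (φ : R →+* S) (t : Fin 3 → R) (p : Fin 15 → R) (i j : Fin 4) :
    φ (F3 t p i j) = F3 (fun s => φ (t s)) (fun s => φ (p s)) i j := by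
  fin_cases i <;> fin_cases j <;> simp [F3, map_ofNat]

theorem map_DF (φ : R →+* S) (a : Fin 12 → R) (i m l : Fin 4) :
    φ (DF a i m l) = DF (fun s => φ (a s)) i m l := by
  have ht : (fun s => φ (tt a s)) = tt (fun s => φ (a s)) := funext fun s => map_tt φ a s
  have hp : (fun s => φ (pp a s)) = pp (fun s => φ (a s)) := funext fun s => map_pp φ a s
  fin_cases i
  · show φ ((1 : Matrix (Fin 4) (Fin 4) R) m l) = (1 : Matrix (Fin 4) (Fin 4) S) m l
    rw [Matrix.one_apply, Matrix.one_apply]
    split_ifs <;> simp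
  · show φ (F1 (tt a) (pp a) m l) = F1 (tt fun s => φ (a s)) (pp fun s => φ (a s)) m l
    rw [map_F1, ht, hp]
  · show φ (F2 (tt a) (pp a) m l) = F2 (tt fun s => φ (a s)) (pp fun s => φ (a s)) m l
    rw [map_F2, ht, hp]
  · show φ (F3 (tt a) (pp a) m l) = F3 (tt fun s => φ (a s)) (pp fun s => φ (a s)) m l
    rw [map_F3, ht, hp]

theorem det_upd (A : Matrix (Fin 4) (Fin 4) R) (v : Fin 4 → R) (r : Fin 4) :
    (A.updateCol r (A *ᵥ v)).det = A.det * v r := by
  rw [← Matrix.cramer_apply, Matrix.cramer_eq_adjugate_mulVec, Matrix.mulVec_mulVec,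
    Matrix.adjugate_mul, Matrix.smul_mulVec, Matrix.one_mulVec, Pi.smul_apply, smul_eq_mul]

theorem map_det_upd (φ : R →+* S) (A : Matrix (Fin 4) (Fin 4) R) (v : Fin 4 → R) (r : Fin 4) :
    φ ((A.updateCol r v).det) = ((A.map φ).updateCol r fun i => φ (v i)).det := by
  rw [RingHom.map_det, RingHom.mapMatrix_apply, Matrix.map_updateCol]
  rfl

end poly

section co

variable {L : Type u} [Field L] {N : Matrix (Fin 4) (Fin 4) L}

theorem mul_co (hN : N.det ≠ 0) (f : Fin 4 → L) : N *ᵥ co N f = f := by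
  unfold co
  rw [Matrix.mulVec_mulVec, Matrix.mul_nonsing_inv _ (isUnit_iff_ne_zero.2 hN), Matrix.one_mulVec]

theorem co_mul (hN : N.det ≠ 0) (f : Fin 4 → L) : co N (N *ᵥ f) = f := by
  unfold co
  rw [Matrix.mulVec_mulVec, Matrix.nonsing_inv_mul _ (isUnit_iff_ne_zero.2 hN), Matrix.one_mulVec]

theorem inj (hN : N.det ≠ 0) {f g : Fin 4 → L} (h : N *ᵥ f = N *ᵥ g) : f = g := by
  rw [← co_mul hN f, h, co_mul hN]

theorem co_eq (hN : N.det ≠ 0) {f g : Fin 4 → L} (h : N *ᵥ f = g) : co N g = f := by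
  rw [← h, co_mul hN]

theorem Lam_eq (hN : N.det ≠ 0) (X : Fin 15) : Lam N X = N.det * pL (sc N) X := by
  unfold Lam
  rw [← smul_pL]
  congr 1
  funext i j r
  unfold dsc sc
  rw [← det_upd, mul_co hN]

theorem map_Lam {L' : Type u} [Field L'] (ι : L →+* L') (X : Fin 15) :
    Lam (N.map ι) X = ι (Lam N X) := by
  unfold Lam
  rw [map_pL]
  congr 1
  funext i j r
  unfold dsc
  rw [map_det_upd]
  congr 2
  funext q
  rw [map_mul]
  rfl

end co

/-- the retract lemma -/
theorem smooth_retract {k A P : Type u} [CommRing k] [CommRing A] [CommRing P] [Algebra k A]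
    [Algebra k P] [Algebra.FormallySmooth k P] (f : P →ₐ[k] A) (g : A →ₐ[k] P)
    (h : f.comp g = AlgHom.id k A) : Algebra.FormallySmooth k A := by
  refine Algebra.FormallySmooth.of_split f ((Ideal.Quotient.mkₐ k _).comp g) ?_
  ext x
  exact congrArg (fun φ : A →ₐ[k] A => φ x) h

theorem smooth_of_data {k U M L : Type u} [Field k] [CommRing U] [Algebra k U] [Field M]
    [Algebra k M] [Field L] [Algebra k L] (hU : Algebra.Smooth k U) (ι : M →ₐ[k] L)
    (G : U →ₐ[k] L) (hG : Function.Injective G) (K : Subalgebra k M) (π : U →ₐ[k] K) (h : U)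
    (hπh : π h = 1) (hGh : G h ≠ 0) (S : Set M) (hK : K = Algebra.adjoin k S)
    (hS : ∀ z ∈ S, ∃ x : U, (π x : M) = z ∧ G x = G h * ι z) : Algebra.Smooth k K := by
  -- finite type
  have hsurj : Function.Surjective π := by
    have h1 : K ≤ (K.val.comp π).range := by
      refine hK.le.trans (Algebra.adjoin_le ?_)
      intro z hz
      obtain ⟨x, hx, -⟩ := hS z hz
      exact ⟨x, hx⟩
    intro c
    obtain ⟨x, hx⟩ := h1 c.2
    exact ⟨x, Subtype.ext hx⟩
  have hft : Algebra.FiniteType k K := Algebra.FiniteType.of_surjective π hsurj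
  have hfp : Algebra.FinitePresentation k K := Algebra.FinitePresentation.of_finiteType.1 hft
  -- the localization
  let U' := Localization.Away h
  have hcomp : ∀ x, algebraMap U U' x * IsLocalization.Away.invSelf h =
      IsLocalization.mk' U' x (⟨h, Submonoid.mem_powers h⟩ : Submonoid.powers h) := by
    intro x
    rw [IsLocalization.eq_mk'_iff_mul_eq, mul_assoc, mul_comm (IsLocalization.Away.invSelf h),
      IsLocalization.Away.mul_invSelf, mul_one]
  have hGu : ∀ y : Submonoid.powers h, IsUnit (G y) := by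
    rintro ⟨_, n, rfl⟩
    rw [map_pow]
    exact (isUnit_iff_ne_zero.2 hGh).pow n
  have hπu : ∀ y : Submonoid.powers h, IsUnit (π y) := by
    rintro ⟨_, n, rfl⟩
    rw [map_pow, hπh, one_pow]
    exact isUnit_one
  obtain ⟨G', hG'⟩ : ∃ G' : U' →ₐ[k] L, ∀ x, G' (algebraMap U U' x) = G x :=
    ⟨IsLocalization.liftAlgHom (M := Submonoid.powers h) hGu, fun x => IsLocalization.lift_eq _ _⟩
  obtain ⟨π', hπ'⟩ : ∃ π' : U' →ₐ[k] K, ∀ x, π' (algebraMap U U' x) = π x :=
    ⟨IsLocalization.liftAlgHom (M := Submonoid.powers h) hπu, fun x => IsLocalization.lift_eq _ _⟩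
  have hself : algebraMap U U' h * IsLocalization.Away.invSelf h = 1 :=
    IsLocalization.Away.mul_invSelf h
  have hG'inj : Function.Injective G' := by
    rw [injective_iff_map_eq_zero]
    intro x hx
    obtain ⟨n, a, ha⟩ := IsLocalization.Away.surj h x
    have h1 : G a = 0 := by
      rw [← hG', ← ha, map_mul, hx, zero_mul]
    have h2 : a = 0 := by
      apply hG
      rw [h1, map_zero]
    rw [h2, map_zero] at ha
    have h3 : IsUnit (algebraMap U U' h ^ n) :=
      (IsLocalization.Away.algebraMap_isUnit h).pow n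
    exact (h3.mul_left_eq_zero).1 ha
  have hFS : Algebra.FormallySmooth k U' := inferInstance
  -- the elements
  have hel : ∀ c : K, ∃ x : U', G' x = ι c ∧ π' x = c := by
    have h1 : K ≤ ((AlgHom.equalizer G' (ι.comp (K.val.comp π'))).map G').comap ι := by
      refine hK.le.trans (Algebra.adjoin_le ?_)
      intro z hz
      obtain ⟨x, hx1, hx2⟩ := hS z hz
      have e1 : G' (algebraMap U U' x * IsLocalization.Away.invSelf h) = ι z := by
        have e2 : G h * G' (IsLocalization.Away.invSelf h) = 1 := by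
          rw [← hG', ← map_mul, hself, map_one]
        rw [map_mul, hG', hx2, mul_right_comm, e2, one_mul]
      have e3 : π' (algebraMap U U' x * IsLocalization.Away.invSelf h) = π x := by
        have e4 : π' (IsLocalization.Away.invSelf h) = 1 := by
          have := congrArg π' hself
          rwa [map_mul, hπ', hπh, one_mul, map_one] at this
        rw [map_mul, hπ', e4, mul_one]
      refine ⟨algebraMap U U' x * IsLocalization.Away.invSelf h, ?_, e1⟩
      show G' _ = ι (K.val (π' _))
      rw [e1, e3]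
      exact congrArg ι hx1.symm
    intro c
    obtain ⟨x, hx1, hx2⟩ := h1 c.2
    refine ⟨x, hx2, ?_⟩
    have h2 : G' x = ι (K.val (π' x)) := hx1
    have h3 : ι (K.val (π' x)) = ι (c : M) := h2.symm.trans hx2
    exact Subtype.ext (ι.injective h3)
  choose jf hj1 hj2 using hel
  let j0 : K →ₐ[k] G'.range := (ι.comp K.val).codRestrict G'.range (fun c => ⟨jf c, hj1 c⟩)
  let j : K →ₐ[k] U' := ((AlgEquiv.ofInjective G' hG'inj).symm : G'.range →ₐ[k] U').comp j0
  have hj : ∀ c, j c = jf c := by
    intro c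
    apply hG'inj
    have h1 : (AlgEquiv.ofInjective G' hG'inj) ((AlgEquiv.ofInjective G' hG'inj).symm (j0 c)) =
      j0 c := AlgEquiv.apply_symm_apply _ _
    have h2 := congrArg (fun t : G'.range => (t : L)) h1
    rw [hj1]
    exact h2
  have hfs : Algebra.FormallySmooth k K := by
    refine smooth_retract π' j ?_
    ext c
    rw [AlgHom.comp_apply, hj, hj2]
    rfl
  exact ⟨hfs, hfp⟩

/-- the coordinates of functions satisfy `IsHomF` over the field -/
theorem hom_mul (hSTR : S_STR.{u}) {M B : Type u} [Field M] [CommRing B]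
    {N : Matrix (Fin 4) (Fin 4) M} (hN0 : ∀ q, N q 0 = 1) (hNd : N.det ≠ 0)
    (hNp : pL (sc N) 2 ≠ 0) (f g : Fin 4 → M) :
    co N (f * g) = (∑ i, co N f i • DF (par N) i) *ᵥ co N g := by
  refine co_eq hNd ?_
  have h1 := (hSTR M N hN0 hNd hNp).1
  have hf : ∀ q, f q = ∑ i, N q i * co N f i := fun q => by
    have := congrFun (mul_co hNd f) q
    rw [← this]
    rfl
  have hg : ∀ q, g q = ∑ i, N q i * co N g i := fun q => by
    have := congrFun (mul_co hNd g) q
    rw [← this]
    rfl
  funext q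
  rw [Pi.mul_apply, hf q, hg q, Finset.sum_mul_sum]
  have h2 : ∀ i l, N q i * co N f i * (N q l * co N g l) =
      ∑ m, N q m * (co N f i * DF (par N) i m l * co N g l) := by
    intro i l
    calc N q i * co N f i * (N q l * co N g l) =
          (N q i * N q l) * (co N f i * co N g l) := by ring
      _ = _ := by
          rw [h1, Finset.sum_mul]
          refine Finset.sum_congr rfl fun m _ => ?_
          ring
  simp only [h2]
  simp only [Matrix.mulVec, dotProduct, Matrix.sum_apply, Matrix.smul_apply, smul_eq_mul,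
    Finset.mul_sum, Finset.sum_mul]
  -- both sides are triple sums
  have e1 : ∑ i, ∑ l, ∑ m, N q m * (co N f i * DF (par N) i m l * co N g l) =
      ∑ m, ∑ l, ∑ i, N q m * (co N f i * DF (par N) i m l * co N g l) := by
    rw [Finset.sum_comm]
    rw [Finset.sum_congr rfl fun l _ => Finset.sum_comm]
    rw [Finset.sum_comm]
  exact e1.symm

theorem t_RET (hSTR : S_STR.{u}) (hT : S_T.{u}) : S_RET.{u} := by
  intro k B M L _ _ _ _ _ _ _ ι ev ev' hev T hT0 hTd hTp U _ _ G yU aU hU m hm0 N hN hNd hNp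
  obtain ⟨hUs, hGinj, hGy, hGa, huniv⟩ := hU
  have hN0 : ∀ q, N q 0 = 1 := by
    intro q
    rw [hN, hm0, map_one]
    rfl
  have hsc : ∀ i j, sc N i j = co N (ev (m i.succ * m j.succ)) := by
    intro i j
    unfold sc
    congr 1
    funext q
    rw [map_mul, Pi.mul_apply, hN, hN]
  -- the algebra
  have hcoK : ∀ b i, co N (ev b) i ∈ CC k ev N := fun b i =>
    Algebra.subset_adjoin (Or.inl ⟨b, i, rfl⟩)
  have hpK : ∀ X, pL (sc N) X / pL (sc N) 2 ∈ CC k ev N := fun X =>
    Algebra.subset_adjoin (Or.inr ⟨X, rfl⟩)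
  have hscK : ∀ i j r, sc N i j r ∈ CC k ev N := by
    intro i j r
    rw [hsc]
    exact hcoK _ _
  have hpLK : ∀ X, pL (sc N) X ∈ CC k ev N := by
    intro X
    have h1 := map_pL (CC k ev N).val.toRingHom (fun i j r => ⟨sc N i j r, hscK i j r⟩) X
    have h2 : pL (sc N) X = ((pL (fun i j r => (⟨sc N i j r, hscK i j r⟩ : CC k ev N)) X :
        CC k ev N) : M) := h1.symm
    rw [h2]
    exact Subtype.mem _
  have hparK : ∀ s, par N s ∈ CC k ev N := by
    intro s
    fin_cases s
    · exact hpLK 2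
    · exact hpK 0
    · exact hpK 1
    · exact hpK 3
    · exact hpK 4
    · exact hpK 6
    · exact hpK 9
    · exact hpK 12
    · exact hpK 13
    · exact hscK 0 1 2
    · exact hscK 0 1 1
    · exact hscK 0 2 1
  have hhom : IsHomF k (fun s => (⟨par N s, hparK s⟩ : CC k ev N))
      (fun b i => (⟨co N (ev b) i, hcoK b i⟩ : CC k ev N)) := by
    refine ⟨fun b b' => ?_, fun b b' => ?_, fun c => ?_⟩
    · funext i
      apply Subtype.ext
      show co N (ev (b + b')) i = co N (ev b) i + co N (ev b') i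
      rw [map_add]
      unfold co
      rw [Matrix.mulVec_add, Pi.add_apply]
    · funext i
      apply Subtype.ext
      show co N (ev (b * b')) i = _
      rw [map_mul, hom_mul (B := B) hSTR hN0 hNd hNp]
      simp only [Matrix.mulVec, dotProduct, Matrix.sum_apply, Matrix.smul_apply, smul_eq_mul]
      have h1 : ∀ (x : CC k ev N), (x : M) = (CC k ev N).val.toRingHom x := fun x => rfl
      rw [h1, map_sum]
      refine Finset.sum_congr rfl fun l _ => ?_
      rw [map_mul, map_sum]
      congr 1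
      refine Finset.sum_congr rfl fun i' _ => ?_
      rw [map_mul, map_DF]
      rfl
    · funext i
      apply Subtype.ext
      show co N (ev (algebraMap k B c)) i = _
      have h1 : co N (ev (algebraMap k B c)) = Pi.single 0 (algebraMap k M c) := by
        refine co_eq hNd ?_
        funext q
        rw [AlgHom.commutes, Matrix.mulVec_single, Pi.smul_apply,
          Matrix.col_apply, hN0, MulOpposite.smul_eq_mul_unop, MulOpposite.unop_op, one_mul]
        rfl
      rw [h1]
      rcases eq_or_ne i 0 with rfl | hi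
      · rw [Pi.single_eq_same, Pi.single_eq_same]
        rfl
      · rw [Pi.single_eq_of_ne hi, Pi.single_eq_of_ne hi]
        rfl
  obtain ⟨π, hπy0, hπa0⟩ := huniv (CC k ev N) _ _ hhom
  -- the homomorphism to `M`
  obtain ⟨πM, hπM⟩ : ∃ πM : U →ₐ[k] M, πM = (CC k ev N).val.comp π := ⟨_, rfl⟩
  have hπMv : ∀ x, (π x : M) = πM x := fun x => by rw [hπM]; rfl
  have hπy : ∀ b r, πM (yU b r) = co N (ev b) r := fun b r => by
    rw [← hπMv, hπy0]
  have hπa : ∀ s, πM (aU s) = par N s := fun s => by
    rw [← hπMv, hπa0]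
  -- the matrix `γ`
  obtain ⟨γ, hγ⟩ : ∃ γ : Matrix (Fin 4) (Fin 4) U, γ = Matrix.of fun i l => yU (m l) i :=
    ⟨_, rfl⟩
  have hγe : ∀ i l, γ i l = yU (m l) i := fun i l => by rw [hγ]; rfl
  have hTG : T * γ.map G = N.map ι := by
    ext q l
    have h1 := congrFun (mul_co hTd (ev' (m l))) q
    rw [Matrix.map_apply, hN, ← hev, ← h1, Matrix.mul_apply]
    show ∑ i, T q i * (γ.map G) i l = ∑ i, T q i * co T (ev' (m l)) i
    refine Finset.sum_congr rfl fun i _ => ?_
    rw [Matrix.map_apply, hγe, hGy]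
  have hγπ : γ.map πM = 1 := by
    ext i l
    rw [Matrix.map_apply, hγe, hπy]
    have h1 : co N (ev (m l)) = Pi.single l 1 := by
      refine co_eq hNd ?_
      funext q
      rw [Matrix.mulVec_single_one, Matrix.col_apply, hN]
    rw [h1, Matrix.one_apply, Pi.single_apply]
  have hdetG : T.det * G γ.det = ι N.det := by
    have h1 := congrArg Matrix.det hTG
    rw [Matrix.det_mul] at h1
    have h2 : G γ.det = (γ.map G).det := by
      have := RingHom.map_det G.toRingHom γ
      exact this
    have h3 : ι N.det = (N.map ι).det := by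
      have := RingHom.map_det ι.toRingHom N
      exact this
    rw [h2, h3, h1]
  have hιN : ι N.det ≠ 0 := by
    rw [Ne, map_eq_zero]
    exact hNd
  have hdG0 : G γ.det ≠ 0 := by
    intro h
    rw [h, mul_zero] at hdetG
    exact hιN hdetG.symm
  have hdetπ : πM γ.det = 1 := by
    have h1 : πM γ.det = (γ.map πM).det := RingHom.map_det πM.toRingHom γ
    rw [h1, hγπ, Matrix.det_one]
  have hGγ : ∀ b, (γ.map G) *ᵥ (fun i => ι (co N (ev b) i)) = fun i => G (yU b i) := by
    intro b
    apply inj hTd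
    rw [Matrix.mulVec_mulVec, hTG]
    have h1 : (fun i => G (yU b i)) = co T (ev' b) := funext fun i => hGy b i
    rw [h1, mul_co hTd]
    funext q
    rw [hev]
    have h2 := congrFun (mul_co hNd (ev b)) q
    rw [← h2]
    show ∑ i, (N.map ι) q i * ι (co N (ev b) i) = ι (∑ i, N q i * co N (ev b) i)
    rw [map_sum]
    refine Finset.sum_congr rfl fun i _ => ?_
    rw [map_mul, Matrix.map_apply]
  -- the elements `ξ`
  obtain ⟨ξ, hξ⟩ : ∃ ξ : Fin 15 → U, ξ = fun X =>
      pL (fun i j r => (γ.updateCol r (yU (m i.succ * m j.succ))).det) X := ⟨_, rfl⟩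
  have hGξ : ∀ X, G (ξ X) = G γ.det * ι (pL (sc N) X) := by
    intro X
    have h0 : G (ξ X) = G.toRingHom (pL (fun i j r =>
        (γ.updateCol r (yU (m i.succ * m j.succ))).det) X) := by rw [hξ]; rfl
    have h00 : ι (pL (sc N) X) = ι.toRingHom (pL (sc N) X) := rfl
    rw [h0, h00, map_pL, map_pL, ← smul_pL]
    congr 1
    funext i j r
    rw [map_det_upd]
    have h1 : (fun i' => G.toRingHom (yU (m i.succ * m j.succ) i')) =
        (γ.map G) *ᵥ (fun i' => ι (co N (ev (m i.succ * m j.succ)) i')) :=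
      (hGγ (m i.succ * m j.succ)).symm
    rw [h1, hsc]
    have h2 : G γ.det = (γ.map G).det := RingHom.map_det G.toRingHom γ
    rw [h2]
    exact det_upd (γ.map G) _ r
  have hπξ : ∀ X, πM (ξ X) = pL (sc N) X := by
    intro X
    have h0 : πM (ξ X) = πM.toRingHom (pL (fun i j r =>
        (γ.updateCol r (yU (m i.succ * m j.succ))).det) X) := by rw [hξ]; rfl
    rw [h0, map_pL]
    congr 1
    funext i j r
    rw [map_det_upd]
    have h1 : (fun i' => πM.toRingHom (yU (m i.succ * m j.succ) i')) =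
        (1 : Matrix (Fin 4) (Fin 4) M) *ᵥ (sc N i j) := by
      rw [Matrix.one_mulVec, hsc]
      funext i'
      exact hπy _ _
    have h2 : γ.map πM.toRingHom = 1 := hγπ
    rw [h1, h2, det_upd, Matrix.det_one, one_mul]
  -- the elements `λ`
  have hτ : G (aU 0) = pL (sc T) 2 := by
    rw [hGa]
    rfl
  have hlam : ∀ X, ∃ c ∈ G.toRingHom.range, Lam (T * γ.map G) X = T.det * (G (aU 0) * c) := by
    refine hT L G.toRingHom.range T hT0 hTd (G (aU 0)) (fun X => ?_) (γ.map G) (fun i l => ?_)
      (fun i => ?_)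
    · refine ⟨G (qq aU X), ⟨qq aU X, rfl⟩, ?_⟩
      have h1 := congrFun (hSTR L T hT0 hTd hTp).2.1 X
      rw [← h1]
      have h2 : G (qq aU X) = qq (fun s => G (aU s)) X := map_qq G.toRingHom aU X
      have h3 : (fun s => G (aU s)) = par T := funext hGa
      rw [h2, h3, hGa]
      rfl
    · exact ⟨γ i l, rfl⟩
    · rw [Matrix.map_apply, hγe, hm0, hGy]
      have h1 : co T (ev' 1) = Pi.single 0 1 := by
        refine co_eq hTd ?_
        funext q
        rw [Matrix.mulVec_single_one, Matrix.col_apply, hT0, map_one]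
        rfl
      rw [h1, Pi.single_apply]
  choose lamL hlamL hlamE using hlam
  choose lam hlamG using hlamL
  have hlamG' : ∀ X, G (lam X) = lamL X := hlamG
  have hkey : ∀ X, G γ.det * ι (pL (sc N) X) = G (aU 0) * G (lam X) := by
    intro X
    have h1 := hlamE X
    rw [hTG] at h1
    have h2 : Lam (N.map ι) X = ι (Lam N X) := map_Lam ι.toRingHom X
    rw [h2, Lam_eq hNd, map_mul, ← hdetG, mul_assoc] at h1
    have h3 := mul_left_cancel₀ hTd h1
    rw [h3, hlamG']
  have hξlam : ∀ X, ξ X = aU 0 * lam X := by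
    intro X
    apply hGinj
    rw [hGξ, hkey, map_mul]
  have hpar0 : par N 0 = pL (sc N) 2 := rfl
  have hπlam : ∀ X, πM (lam X) = pL (sc N) X / pL (sc N) 2 := by
    intro X
    have h1 := hπξ X
    rw [hξlam, map_mul, hπa, hpar0] at h1
    rw [← h1, mul_div_cancel_left₀ _ hNp]
  have hπlam2 : πM (lam 2) = 1 := by
    rw [hπlam, div_self hNp]
  have hιp : ι (pL (sc N) 2) ≠ 0 := by
    rw [Ne, map_eq_zero]
    exact hNp
  have ha0 : G (aU 0) ≠ 0 := by
    rw [hτ]
    exact hTp
  have hGlam2 : G (lam 2) ≠ 0 := by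
    intro h
    have h1 := hkey 2
    rw [h, mul_zero] at h1
    rcases mul_eq_zero.1 h1 with h2 | h2
    · exact hdG0 h2
    · exact hιp h2
  have hGlam : ∀ X, G (lam X) = G (lam 2) * ι (pL (sc N) X / pL (sc N) 2) := by
    intro X
    have h1 := hkey X
    have h2 := hkey 2
    rw [map_div₀, ← mul_div_assoc, eq_div_iff hιp]
    apply mul_left_cancel₀ ha0
    calc G (aU 0) * (G (lam X) * ι (pL (sc N) 2)) =
          (G (aU 0) * G (lam X)) * ι (pL (sc N) 2) := by ring
      _ = (G γ.det * ι (pL (sc N) 2)) * ι (pL (sc N) X) := by rw [← h1]; ring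
      _ = G (aU 0) * (G (lam 2) * ι (pL (sc N) X)) := by rw [h2]; ring
  -- conclusion
  have hπ1 : ∀ x, πM x = 1 → π x = 1 := fun x hx => Subtype.ext (by rw [hπMv, hx]; rfl)
  refine smooth_of_data hUs ι G hGinj (CC k ev N) π (γ.det * lam 2) ?_ ?_
    ({z | ∃ b i, z = co N (ev b) i} ∪ Set.range fun X => pL (sc N) X / pL (sc N) 2) rfl ?_
  · apply hπ1
    rw [map_mul, hdetπ, hπlam2, one_mul]
  · rw [map_mul]
    exact mul_ne_zero hdG0 hGlam2
  · rintro z (⟨b, i, rfl⟩ | ⟨X, rfl⟩)
    · refine ⟨(γ.adjugate *ᵥ yU b) i * lam 2, ?_, ?_⟩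
      · rw [hπMv, map_mul, hπlam2, mul_one]
        have h1 : πM ((γ.adjugate *ᵥ yU b) i) = πM ((γ.updateCol i (yU b)).det) := by
          rw [← Matrix.cramer_apply, Matrix.cramer_eq_adjugate_mulVec]
        have h2 : πM ((γ.updateCol i (yU b)).det) =
            πM.toRingHom ((γ.updateCol i (yU b)).det) := rfl
        rw [h1, h2, map_det_upd]
        have h3 : (fun i' => πM.toRingHom (yU b i')) =
            (1 : Matrix (Fin 4) (Fin 4) M) *ᵥ (co N (ev b)) := by
          rw [Matrix.one_mulVec]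
          funext i'
          exact hπy _ _
        have h4 : γ.map πM.toRingHom = 1 := hγπ
        rw [h3, h4, det_upd, Matrix.det_one, one_mul]
      · have h1 : G ((γ.adjugate *ᵥ yU b) i) = G ((γ.updateCol i (yU b)).det) := by
          rw [← Matrix.cramer_apply, Matrix.cramer_eq_adjugate_mulVec]
        have h2 : G ((γ.updateCol i (yU b)).det) =
            G.toRingHom ((γ.updateCol i (yU b)).det) := rfl
        rw [map_mul, h1, h2, map_det_upd]
        have h3 : (fun i' => G.toRingHom (yU b i')) =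
            (γ.map G) *ᵥ (fun i' => ι (co N (ev b) i')) := (hGγ b).symm
        have h4 : G γ.det = (γ.map G).det := RingHom.map_det G.toRingHom γ
        have h5 : ((γ.map G.toRingHom).updateCol i
            ((γ.map G) *ᵥ (fun i' => ι (co N (ev b) i')))).det = (γ.map G).det *
              ι (co N (ev b) i) := det_upd (γ.map G) _ i
        rw [h3, h5, map_mul, h4]
        ring
    · refine ⟨lam X * γ.det, ?_, ?_⟩
      · rw [hπMv, map_mul, hπlam, hdetπ, mul_one]
      · rw [map_mul, map_mul, hGlam]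
        ring

end Pool.Agent.H894.QS.RET
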